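import Pool.Agent.Helper42.RZ.Basic

/-! # RZ-S10b: sectors -/

set_option autoImplicit false

open MeasureTheory Set Metric Filter Topology
open scoped ENNReal

namespace Pool.Agent.Helper55.RZ

open Pool.Agent.Helper42.RZ

/-- left end of the `j`-th sector -/
noncomputable def lo (N : ℕ) (j : ℝ) : ℝ := -Real.pi + 2 * Real.pi * j / N

/-- the affine map of `Q0` onto the `j`-th sector -/
noncomputable def aff (N : ℕ) (j : ℝ) (v : ℝ × ℝ) : ℝ × ℝ := (lo N j + (v.1 + Real.pi) / N, v.2)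

theorem measurable_aff (N : ℕ) (j : ℝ) : Measurable (aff N j) := by
  unfold aff
  fun_prop

theorem volume_aff (N : ℕ) (hN : 1 ≤ N) (j : ℝ) {T : Set (ℝ × ℝ)} (hT : MeasurableSet T) :
    (volume : Measure (ℝ × ℝ)) (aff N j ⁻¹' T) = N * volume T := by
  have hN0 : (0 : ℝ) < N := by exact_mod_cast hN
  rw [Measure.volume_eq_prod, Measure.prod_apply_symm hT,
    Measure.prod_apply_symm (measurable_aff N j hT), ← lintegral_const_mul]
  · refine lintegral_congr fun z => ?_
    have h1 : (fun x : ℝ => (x, z)) ⁻¹' (aff N j ⁻¹' T) =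
        (fun x : ℝ => x * (N : ℝ)⁻¹) ⁻¹' ((fun x : ℝ => (lo N j + Real.pi / N) + x) ⁻¹'
          ((fun x : ℝ => (x, z)) ⁻¹' T)) := by
      ext x
      simp only [mem_preimage, aff]
      have : lo N j + (x + Real.pi) / N = lo N j + Real.pi / N + x * (N : ℝ)⁻¹ := by
        field_simp
        ring
      rw [this]
    rw [h1, Real.volume_preimage_mul_right (inv_ne_zero hN0.ne'), measure_preimage_add, inv_inv,
      abs_of_pos hN0, ENNReal.ofReal_natCast]
  · exact measurable_measure_prodMk_right hT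

theorem lo_succ (N : ℕ) (j : ℝ) (hN : 1 ≤ N) : lo N (j + 1) = lo N j + 2 * Real.pi / N := by
  have hN0 : (0 : ℝ) < N := by exact_mod_cast hN
  unfold lo
  field_simp
  ring

theorem exists_sectors (N : ℕ) (hN : 1 ≤ N) : ∃ (Q : Fin N → Set E3) (u : Fin N → E3 → E3),
    (∀ j, MeasurableSet (Q j)) ∧ (∀ j, Measurable (u j)) ∧
    (∀ j j', j ≠ j' → Disjoint (Q j) (Q j')) ∧ (∀ j y, ‖y‖ = 1 → ‖u j y‖ = 1) ∧
    ∀ j (B : Set E3), MeasurableSet B → sig.real (u j ⁻¹' B) = N * sig.real (B ∩ Q j) := by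
  have hN0 : (0 : ℝ) < N := by exact_mod_cast hN
  have hpi := Real.pi_pos
  refine ⟨fun j => {x | (co x).1 ∈ Ioc (lo N (j : ℕ)) (lo N ((j : ℕ) + 1))},
    fun j y => pt (aff N (j : ℕ) (co y)), ?_, ?_, ?_, ?_, ?_⟩
  · intro j
    exact (measurable_fst.comp measurable_co) measurableSet_Ioc
  · intro j
    exact measurable_pt.comp ((measurable_aff N _).comp measurable_co)
  · intro j j' hne
    have key : ∀ a b : Fin N, a < b → ∀ x : ℝ, x ≤ lo N ((a : ℕ) + 1) → lo N (b : ℕ) < x → False := by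
      intro a b hab x h1 h2
      have h3 : ((a : ℕ) : ℝ) + 1 ≤ ((b : ℕ) : ℝ) := by exact_mod_cast hab
      have h4 : lo N ((a : ℕ) + 1) ≤ lo N (b : ℕ) := by
        unfold lo
        have : 2 * Real.pi * (((a : ℕ) : ℝ) + 1) / N ≤ 2 * Real.pi * ((b : ℕ) : ℝ) / N := by
          gcongr
        linarith
      linarith
    rw [Set.disjoint_left]
    rintro x ⟨h1, h2⟩ ⟨h3, h4⟩
    rcases lt_or_gt_of_ne hne with h | h
    · exact key j j' h _ h2 h3
    · exact key j' j h _ h4 h1
  · intro j y hy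
    refine norm_pt ?_
    change |y 2| ≤ 1
    have := EuclideanSpace.norm_eq y
    have h2 : ‖y 2‖ ≤ ‖y‖ := PiLp.norm_apply_le y 2
    rw [hy, Real.norm_eq_abs] at h2
    exact h2
  · intro j B hB
    have hu : Measurable fun y => pt (aff N (j : ℕ) (co y)) :=
      measurable_pt.comp ((measurable_aff N _).comp measurable_co)
    have hQ : MeasurableSet {x : E3 | (co x).1 ∈ Ioc (lo N (j : ℕ)) (lo N ((j : ℕ) + 1))} :=
      (measurable_fst.comp measurable_co) measurableSet_Ioc
    rw [sig_real (hu hB), sig_real (hB.inter hQ)]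
    have hj0 : (0 : ℝ) ≤ ((j : ℕ) : ℝ) := Nat.cast_nonneg _
    have hj1 : ((j : ℕ) : ℝ) + 1 ≤ N := by exact_mod_cast j.isLt
    have e1 : pt ⁻¹' ((fun y => pt (aff N (j : ℕ) (co y))) ⁻¹' B) ∩ Q0 =
        aff N (j : ℕ) ⁻¹' (pt ⁻¹' (B ∩ {x : E3 | (co x).1 ∈ Ioc (lo N (j : ℕ)) (lo N ((j : ℕ) + 1))})
          ∩ Q0) := by
      ext v
      simp only [mem_inter_iff, mem_preimage, mem_setOf_eq]
      have hmem : aff N (j : ℕ) v ∈ Q0 ∧ (aff N (j : ℕ) v).1 ∈ Ioc (lo N (j : ℕ)) (lo N ((j : ℕ) + 1))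
          ↔ v ∈ Q0 := by
        rw [lo_succ N _ hN]
        simp only [aff, Q0, mem_prod, mem_Ioc, mem_Ioo]
        constructor
        · rintro ⟨⟨-, h3, h4⟩, h1, h2⟩
          refine ⟨⟨?_, ?_⟩, h3, h4⟩
          · have h5 : 0 < (v.1 + Real.pi) / N := by linarith
            have h6 := (div_pos_iff_of_pos_right hN0).1 h5
            linarith
          · have h5 : (v.1 + Real.pi) / N ≤ 2 * Real.pi / N := by linarith
            have h6 := (div_le_div_iff_of_pos_right hN0).1 h5
            linarith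
        · rintro ⟨⟨h1, h2⟩, h3, h4⟩
          have h5 : 0 < (v.1 + Real.pi) / N := div_pos (by linarith) hN0
          have h6 : (v.1 + Real.pi) / N ≤ 2 * Real.pi / N :=
            (div_le_div_iff_of_pos_right hN0).2 (by linarith)
          have h7 : 0 ≤ 2 * Real.pi * ((j : ℕ) : ℝ) / N := by positivity
          have h8 : 2 * Real.pi * ((j : ℕ) : ℝ) / N + 2 * Real.pi / N ≤ 2 * Real.pi := by
            rw [← add_div, div_le_iff₀ hN0]
            nlinarith
          refine ⟨⟨⟨?_, ?_⟩, h3, h4⟩, by linarith, by linarith⟩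
          · unfold lo; linarith
          · unfold lo; linarith
      constructor
      · rintro ⟨h1, h2⟩
        have h3 := hmem.2 h2
        have h4 : co (pt v) = v := co_pt h2
        rw [h4] at h1
        refine ⟨⟨h1, ?_⟩, h3.1⟩
        rw [co_pt h3.1]
        exact h3.2
      · rintro ⟨⟨h1, h2⟩, h3⟩
        rw [co_pt h3] at h2
        have h4 : v ∈ Q0 := hmem.1 ⟨h3, h2⟩
        refine ⟨?_, h4⟩
        rw [co_pt h4]
        exact h1
    rw [e1, Measure.real, volume_aff N hN _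
      ((measurable_pt (hB.inter hQ)).inter measurableSet_Q0), ENNReal.toReal_mul,
      ENNReal.toReal_natCast, Measure.real]
    ring

end Pool.Agent.Helper55.RZ
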